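import Pool.Agent.R250.AC3

set_option autoImplicit false

/-!
# MP_5168f5: Kakeya maximal estimates for algebraic choices of lines

Work in `ℝ^{d+1} = ℝ^d × ℝ` (`Space d`), `n = d + 1 ≥ 2`.  For `v` in the closed unit ball of `ℝ^d`
the line number `v` of the family given by `b : ℝ^d → ℝ^d` is `{(b v + s v, s) : s ∈ ℝ}`; its
direction is `(v, 1)`.  `lineMax δ b f v` is the supremum of the averages of `|f|` over the
`δ`-tubes of length one with axis on the line number `v` of the family `b`.

No continuity of `b` is assumed anywhere: the choice function may jump arbitrarily often between the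
branches of an algebraic function.

1. *Algebraic choice functions.*  Up to an error smaller than `δ`, the coordinates of `b` are
   algebraic functions: for almost every `v` the point `b v` is at distance less than `δ` from a
   point `a` with `P i (v, a i) = 0`, where `P 1, ..., P d` are nonzero polynomials of degree at most
   `k`.  (All semialgebraic maps `b`, and all measurable selections of branches of algebraic
   functions, are of this kind.)
2. *Algebraic congruences of lines.*  `b v` is at distance less than `δ` from a regular zero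
   (or at distance at most `δ` from a stable zero) `a` of a system `Q i (v, a) = 0`, `i = 1, ..., d`, of
   polynomials of degree at most `k`.
3. *Semialgebraic classes of lines.*  An arbitrary set of lines is given by polynomial inequalities
   `Q i (v, a) > 0` of total degree `E`.  Then the estimate holds for the lower maximal function, the
   infimum over the lines of direction `v` of the class: in almost every direction the class contains
   lines that satisfy it.

In all cases the estimate is the one of the Kakeya maximal conjecture, for all exponents `p ≥ n`,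
with a logarithmic loss at the critical exponent `p = n` and without any loss in `δ` for `p > n`, and
with a constant that is polynomial in the degrees.
-/

open MeasureTheory Set Filter Topology ENNReal NNReal Metric

namespace Pool.Agent.Results.MP_5168f5_an.AlgebraicChoice

open Pool.Agent.H803R2.KakFTO

/-- The value of a polynomial in the variables `v` and one more variable `s`. -/
noncomputable def value {d : ℕ} (P : MvPolynomial (Option (Fin d)) ℝ) (v : Vec d) (s : ℝ) : ℝ :=
  MvPolynomial.eval (fun o => o.elim s (fun j => v j)) P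

/-- The value of a polynomial in the two groups of variables `v`, `a`. -/
noncomputable def value₂ {d : ℕ} (Q : MvPolynomial (Fin d ⊕ Fin d) ℝ) (v a : Vec d) : ℝ :=
  MvPolynomial.eval (Sum.elim (fun j => v j) (fun j => a j)) Q

/-- The values of a system of polynomials. -/
noncomputable def system {d : ℕ} (Q : Fin d → MvPolynomial (Fin d ⊕ Fin d) ℝ) (v a : Vec d) :
    Vec d := WithLp.toLp 2 (fun i => value₂ (Q i) v a)

/-- For almost every `v ∈ B` the point `b v` has distance less than `δ` from a point whose
coordinates are zeros of the polynomials `P i (v, ·)`, with nonzero polynomials `P i` of degree at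
most `k`. -/
def NearAlgebraic {d : ℕ} (k : ℕ) (δ : ℝ) (B : Set (Vec d)) (b : Vec d → Vec d) : Prop :=
  ∃ P : Fin d → MvPolynomial (Option (Fin d)) ℝ, (∀ i, P i ≠ 0 ∧ (P i).totalDegree ≤ k) ∧
    ∀ᵐ v : Vec d, v ∈ B → ∃ a : Vec d, ‖b v - a‖ < δ ∧ ∀ i, value (P i) v (a i) = 0

/-- For almost every `v ∈ B` the point `b v` has distance less than `δ` from a zero `a` of the
system `Q` of polynomials of degree at most `k` at which the derivative of the system with respect to
`a` is invertible. -/
def NearRegular {d : ℕ} (k : ℕ) (δ : ℝ) (B : Set (Vec d)) (b : Vec d → Vec d) : Prop :=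
  ∃ Q : Fin d → MvPolynomial (Fin d ⊕ Fin d) ℝ, (∀ i, (Q i).totalDegree ≤ k) ∧
    ∀ᵐ v : Vec d, v ∈ B → ∃ a : Vec d, ‖b v - a‖ < δ ∧ system Q v a = 0 ∧
      (fderiv ℝ (system Q v) a).det ≠ 0

/-- For almost every `v ∈ B` the system `Q` of polynomials of degree at most `k` has a stable zero
near `b v`: for all small `ℓ` the equation `Q (v, a) = ℓ` has a solution `a` at distance at most `δ`
from `b v`. -/
def NearStable {d : ℕ} (k : ℕ) (δ : ℝ) (B : Set (Vec d)) (b : Vec d → Vec d) : Prop :=
  ∃ Q : Fin d → MvPolynomial (Fin d ⊕ Fin d) ℝ, (∀ i, (Q i).totalDegree ≤ k) ∧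
    ∀ᵐ v : Vec d, v ∈ B → ∃ ε : ℝ, 0 < ε ∧ ∀ ℓ : Vec d, ‖ℓ‖ < ε →
      ∃ a : Vec d, ‖b v - a‖ ≤ δ ∧ system Q v a = ℓ

/-- The bound for the number of zeros of a system of degree `k`. -/
def mult (d k : ℕ) : ℕ := ((1 + d * k) ^ d) ^ d

/-- The loss: `(1 + log (1/δ))^(n-1)` at the critical exponent `p = n`, none for `p > n`. -/
noncomputable def loss (d : ℕ) (p δ : ℝ) : ℝ :=
  if p = d + 1 then (1 + Real.log (1 / δ)) ^ d else 1

/-- The `L^p` estimate on the set `B` of directions for the family `b`, with the constant `C`. -/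
def Estimate {d : ℕ} (p δ : ℝ) (B : Set (Vec d)) (b : Vec d → Vec d) (C : ℝ) : Prop :=
  ∀ f : Space d → ℝ, AEMeasurable f volume →
    ∫⁻ v in B, lineMax δ b f v ^ p ≤ ENNReal.ofReal (C * loss d p δ) * ∫⁻ y, ‖f y‖ₑ ^ p

/-- The lines of direction `(v, 1)` of the class given by the inequalities `Q i > 0`, as the set of
their points of height zero. -/
def Class {d M : ℕ} (Q : Fin M → MvPolynomial (Fin d ⊕ Fin d) ℝ) (v : Vec d) : Set (Vec d) :=
  {a | ∀ i, 0 < value₂ (Q i) v a}

/-- The infimum over the lines of direction `(v, 1)` of the class of the suprema of the averages of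
`|f|` over the `δ`-tubes of length one with axis on the line. -/
noncomputable def lowerMax {d M : ℕ} (Q : Fin M → MvPolynomial (Fin d ⊕ Fin d) ℝ) (δ : ℝ)
    (f : Space d → ℝ) (v : Vec d) : ℝ≥0∞ :=
  ⨅ a : Class Q v, lineMax δ (fun _ => (a : Vec d)) f v

/-- **Kakeya maximal estimates for algebraic choices of lines**, `n = d + 1 ≥ 2`, `p ≥ n`. -/
theorem result (d : ℕ) (hd : 1 ≤ d) (p : ℝ) (hp : (d : ℝ) + 1 ≤ p) :
    ∃ C : ℝ, 0 < C ∧
    -- for every measurable choice `b` of lines
    (∀ (k : ℕ) (B : Set (Vec d)) (b : Vec d → Vec d) (δ : ℝ), 1 ≤ k → MeasurableSet B →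
      B ⊆ closedBall 0 1 → Measurable b → 0 < δ → δ < 1 →
      -- (1) algebraic choice functions
      (NearAlgebraic k δ B b → Estimate p δ B b (C * ((k + 1) ^ d * mult d k : ℕ))) ∧
      -- (2) regular zeros, and stable zeros, of systems of polynomials
      (NearRegular k δ B b → Estimate p δ B b (C * (mult d k : ℕ))) ∧
      (NearStable k δ B b → Estimate p δ B b (C * (mult d k : ℕ)))) ∧
    -- (3) semialgebraic classes of lines
    (∀ (M E : ℕ) (Q : Fin M → MvPolynomial (Fin d ⊕ Fin d) ℝ) (δ : ℝ) (f : Space d → ℝ),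
      ∑ i, (Q i).totalDegree ≤ E → 0 < δ → δ < 1 → AEMeasurable f volume →
      ∫⁻ v in {v | v ∈ closedBall (0 : Vec d) 1 ∧ (Class Q v).Nonempty}, lowerMax Q δ f v ^ p ≤
        ENNReal.ofReal (C * (mult d (2 + E) : ℕ) * loss d p δ) * ∫⁻ y, ‖f y‖ₑ ^ p) := by
  have hstable : ∀ (k : ℕ) (B : Set (Vec d)) (b : Vec d → Vec d) (δ : ℝ), 1 ≤ k →
      MeasurableSet B → B ⊆ closedBall 0 1 → Measurable b → 0 < δ → δ < 1 →
      NearStable k δ B b →
      Estimate p δ B b (Pool.Agent.R250.AC.cC d p * (mult d k : ℕ)) := by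
    rintro k B b δ hk hB hB1 hb hδ hδ1 ⟨Q, hQ, hs⟩ f hf
    obtain ⟨M, hM, hSM, hest⟩ := Pool.Agent.R250.AC.stable_est hd hp hk hQ hB hB1 hb hδ hδ1 hf
      (S := {v | v ∈ B ∧ Pool.Agent.R250.AC.StableAt (Pool.Agent.R250.AC.sys Q) δ v (b v)})
      (fun v hv => hv.1) (fun v hv => hv.2)
    refine le_trans ?_ hest
    apply lintegral_mono' _ le_rfl
    apply Measure.restrict_mono_ae
    filter_upwards [hs, hSM] with v hv hvM hvB
    exact hvM ⟨hvB, hv hvB⟩
  refine ⟨Pool.Agent.R250.AC.cC d p, Pool.Agent.R250.AC.cC_pos hd hp, ?_, ?_⟩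
  · intro k B b δ hk hB hB1 hb hδ hδ1
    refine ⟨?_, ?_, hstable k B b δ hk hB hB1 hb hδ hδ1⟩
    · rintro ⟨P, hP, hs⟩ f hf
      exact Pool.Agent.R250.AC.alg_est hd hp hk (fun i => (hP i).1) (fun i => (hP i).2) hB hB1 hb
        hδ hδ1 hf hs
    · rintro ⟨Q, hQ, hs⟩
      refine hstable k B b δ hk hB hB1 hb hδ hδ1 ⟨Q, hQ, ?_⟩
      filter_upwards [hs] with v hv hvB
      obtain ⟨a, ha, h0, h1⟩ := hv hvB
      exact Pool.Agent.R250.AC.stable_of_regular ha h0 h1
  · intro M E Q δ f hE hδ hδ1 hf
    exact Pool.Agent.R250.AC.class_est hd hp Q hE hδ hδ1 hf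

end Pool.Agent.Results.MP_5168f5_an.AlgebraicChoice
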