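import Pool.Agent.R462.KC.Layers

set_option autoImplicit false

/-!
# MP_5168f5: the full Kakeya maximal function on functions layered by convex sets

A *layer* is a difference `U \ K` of two convex sets of `ℝ^n` (shells between convex surfaces of
any shape and thickness, convex sets, complements of convex sets, ...).  We consider sets which are
covered, up to a null set, by `D` layers of total volume at most `W`, and functions `f` such that
for every `s > 0` the set `{|f| > s}` is covered, up to a null set, by `D` layers of total volume at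
most `M` times its volume.  There are no conditions on the size, the shape, the thickness or the
smoothness of the layers.  The supremum in the maximal function is over ALL tubes.

1. For sets there is no loss in `δ`, even for the supremum over the tubes of all widths.
2. For functions the estimate of the Kakeya maximal conjecture holds at the critical exponent `n`,
   with the loss `(1 + log (1/δ))^(n-1)` for the `n`-th powers of the norms.
-/

open MeasureTheory Set Filter Topology ENNReal NNReal Metric

namespace Pool.Agent.Results.MP_5168f5_an.ConvexLayers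

/-- The closed tube of length `1` and radius `δ` with centre `b` and axis direction `e`. -/
def tube {n : ℕ} (δ : ℝ) (e b : EuclideanSpace ℝ (Fin n)) : Set (EuclideanSpace ℝ (Fin n)) :=
  {y | |inner ℝ (y - b) e| ≤ 1 / 2 ∧ ‖(y - b) - (inner ℝ (y - b) e : ℝ) • e‖ ≤ δ}

/-- The Kakeya maximal function. -/
noncomputable def kakeyaMax {n : ℕ} (δ : ℝ) (f : EuclideanSpace ℝ (Fin n) → ℝ)
    (e : EuclideanSpace ℝ (Fin n)) : ℝ≥0∞ :=
  ⨆ a : EuclideanSpace ℝ (Fin n), (volume (tube δ e a))⁻¹ * ∫⁻ y in tube δ e a, ‖f y‖ₑ

/-- The surface measure of the unit sphere. -/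
noncomputable def surf (n : ℕ) : Measure (sphere (0 : EuclideanSpace ℝ (Fin n)) 1) :=
  (volume : Measure (EuclideanSpace ℝ (Fin n))).toSphere

/-- `A` is covered, up to a null set, by `D` differences `U i \ K i` of two convex sets, of total
volume at most `W`. -/
def LayerCover {n : ℕ} (D : ℕ) (W : ℝ≥0∞) (A : Set (EuclideanSpace ℝ (Fin n))) : Prop :=
  ∃ U K : Fin D → Set (EuclideanSpace ℝ (Fin n)), (∀ i, Convex ℝ (U i)) ∧ (∀ i, Convex ℝ (K i)) ∧
    volume (A \ ⋃ i, U i \ K i) = 0 ∧ ∑ i, volume (U i \ K i) ≤ W

/-- For every `s > 0` the set `{|f| > s}` is covered, up to a null set, by `D` differences of two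
convex sets, of total volume at most `M` times its volume. -/
def Layered {n : ℕ} (D : ℕ) (M : ℝ) (f : EuclideanSpace ℝ (Fin n) → ℝ) : Prop :=
  ∀ s : ℝ, 0 < s → LayerCover D (ENNReal.ofReal M * volume {y | s < |f y|}) {y | s < |f y|}

/-- **The Kakeya maximal function on layered functions.**  For every `n ≥ 2` there is `C` such that

1. if `A` is covered, up to a null set, by `D` layers of total volume at most `W`, then
  `∫ (sup_{δ > 0} (1_A)^*_δ)^n ≤ C D^(n-1) W`;
2. if for every `s > 0` the set `{|f| > s}` is covered, up to a null set, by `D` layers of total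
  volume at most `M` times its volume, then
  `∫ (f^*_δ)^n ≤ C D^(n-1) M (1 + log (1/δ))^(n-1) ∫ |f|^n` for all `0 < δ < 1`. -/
theorem result (n : ℕ) (hn : 2 ≤ n) : ∃ C : ℝ, 0 < C ∧
    (∀ (D : ℕ) (W : ℝ≥0∞) (A : Set (EuclideanSpace ℝ (Fin n))), LayerCover D W A →
      ∫⁻ e, (⨆ (δ : ℝ) (_ : 0 < δ),
          kakeyaMax δ (A.indicator 1) (e : EuclideanSpace ℝ (Fin n))) ^ n ∂(surf n) ≤
        ENNReal.ofReal (C * (D:ℝ) ^ (n - 1)) * W) ∧
    (∀ (D : ℕ) (M δ : ℝ) (f : EuclideanSpace ℝ (Fin n) → ℝ), 1 ≤ D → 1 ≤ M → 0 < δ → δ < 1 →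
      AEMeasurable f volume → Layered D M f →
      ∫⁻ e, kakeyaMax δ f (e : EuclideanSpace ℝ (Fin n)) ^ n ∂(surf n) ≤
        ENNReal.ofReal (C * (D:ℝ) ^ (n - 1) * M * (1 + Real.log (1 / δ)) ^ (n - 1)) *
          ∫⁻ y, ‖f y‖ₑ ^ n) := by
  obtain ⟨m, rfl⟩ : ∃ m, n = m + 1 := ⟨n - 1, by omega⟩
  have hm : 1 ≤ m := by omega
  obtain ⟨C, hC, hcrit⟩ := Pool.Agent.R462.KC.crit hm
  have hc0 := Pool.Agent.R462.KC.c0_pos m
  refine ⟨C + 2 ^ (m + 1) * Pool.Agent.R462.KC.c0 m, by positivity, ?_, ?_⟩
  · intro D W A hA
    obtain ⟨P, hPm, hP, hPint⟩ := Pool.Agent.R462.KC.set_major (m := m) hA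
    calc ∫⁻ e, (⨆ (δ : ℝ) (_ : 0 < δ), kakeyaMax δ (A.indicator 1)
          (e : EuclideanSpace ℝ (Fin (m + 1)))) ^ (m + 1) ∂(surf (m + 1))
        ≤ ∫⁻ e, P e ∂(surf (m + 1)) := by
          apply lintegral_mono
          intro e
          show (⨆ (δ : ℝ) (_ : 0 < δ), kakeyaMax δ (A.indicator 1)
            (e : EuclideanSpace ℝ (Fin (m + 1)))) ^ (m + 1) ≤ P e
          rw [ENNReal.iSup_pow]
          apply iSup_le
          intro δ
          by_cases hδ : 0 < δ
          · rw [iSup_pos hδ]
            unfold kakeyaMax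
            rw [ENNReal.iSup_pow]
            apply iSup_le
            intro a
            refine le_trans (pow_le_pow_left' (mul_le_mul' le_rfl ?_) _) (hP e a δ hδ)
            calc ∫⁻ y in tube δ (e : EuclideanSpace ℝ (Fin (m + 1))) a,
                  ‖(A.indicator (1 : EuclideanSpace ℝ (Fin (m + 1)) → ℝ)) y‖ₑ
                = ∫⁻ y in tube δ (e : EuclideanSpace ℝ (Fin (m + 1))) a,
                    A.indicator (1 : EuclideanSpace ℝ (Fin (m + 1)) → ℝ≥0∞) y := by
                  apply lintegral_congr
                  intro y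
                  by_cases hy : y ∈ A
                  · rw [indicator_of_mem hy, indicator_of_mem hy]; simp
                  · rw [indicator_of_notMem hy, indicator_of_notMem hy]; simp
              _ ≤ (volume.restrict (tube δ (e : EuclideanSpace ℝ (Fin (m + 1))) a)) A :=
                  lintegral_indicator_one_le _
              _ = volume (tube δ (e : EuclideanSpace ℝ (Fin (m + 1))) a ∩ A) := by
                  have hT : MeasurableSet (tube δ (e : EuclideanSpace ℝ (Fin (m + 1))) a) :=
                    (Pool.Agent.R462.KC.isClosed_tube δ _ a).measurableSet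
                  rw [Measure.restrict_apply' hT, inter_comm]
          · rw [iSup_neg hδ]
            simp
      _ ≤ ENNReal.ofReal (2 ^ (m + 1) * (D:ℝ) ^ m * Pool.Agent.R462.KC.c0 m) * W := hPint
      _ ≤ _ := by
          refine mul_le_mul' (ENNReal.ofReal_le_ofReal ?_) le_rfl
          rw [Nat.add_sub_cancel]
          have h1 : 0 ≤ C * (D:ℝ) ^ m := by positivity
          nlinarith
  · intro D M δ f hD hM hδ hδ1 hf hfD
    refine (hcrit D M δ f hD hM hδ hδ1 hf hfD).trans ?_
    refine mul_le_mul' (ENNReal.ofReal_le_ofReal ?_) le_rfl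
    rw [Nat.add_sub_cancel]
    have hlog : 0 < Real.log (1 / δ) := Real.log_pos (by rw [lt_div_iff₀ hδ]; linarith)
    gcongr
    have : 0 < 2 ^ (m + 1) * Pool.Agent.R462.KC.c0 m := by positivity
    linarith

end Pool.Agent.Results.MP_5168f5_an.ConvexLayers
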