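import Pool.Agent.R250.PFh

set_option autoImplicit false

/-!
# MP_5168f5: the Kakeya maximal estimate for tubes lying along the planes of an `(n - 2)`-parameter
family that covers space with bounded multiplicity

Let `n = m + 2 ≥ 3` and let `P_t = p t + ℝ u t + ℝ w t`, `t ∈ U ⊆ ℝ^{n-2}`, be a family of
two-dimensional planes in `ℝ^n`; `U` is any measurable set, `p`, `u`, `w` are differentiable at the
points of `U` (no uniformity, no continuity of the derivatives), `u t` and `w t` are orthonormal,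
and almost every point of `ℝ^n` lies on at most `N` of the planes.  (Examples: the planes of a
real algebraic family with `n - 2` parameters; in `ℝ³` the planes of a pencil, the osculating planes
of a rational curve, the tangent planes of a cone.)

`planeMax δ U p u w f e` is the Kakeya maximal function `f^*_δ (e)` in which the supremum is
restricted to the tubes `T_e^δ(a)` whose direction `e` is parallel to some plane `P_t` of the family
and whose axis line passes within `δ` of that plane.  For each direction `e` the supremum is over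
all such `t` and over all positions of the tube along the plane `P_t`.

The theorem is the estimate of the Kakeya maximal conjecture at the critical exponent `n`, with a
logarithmic loss in `δ`, uniformly over all such families (the constant depends only on `n`, and
the multiplicity enters linearly).  No lower bound on the angles between different planes and no
lower bound for the Jacobians of the family is assumed.
-/

open MeasureTheory Set Filter Topology ENNReal NNReal Metric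

namespace Pool.Agent.Results.MP_5168f5_an.PlaneFamilies

/-- The closed tube of length `1` and radius `δ` with centre `b` and axis direction `e`. -/
def tube {n : ℕ} (δ : ℝ) (e b : EuclideanSpace ℝ (Fin n)) : Set (EuclideanSpace ℝ (Fin n)) :=
  {y | |inner ℝ (y - b) e| ≤ 1 / 2 ∧ ‖(y - b) - (inner ℝ (y - b) e : ℝ) • e‖ ≤ δ}

/-- The plane `p t + ℝ u t + ℝ w t`. -/
def plane {m : ℕ} (p u w : EuclideanSpace ℝ (Fin m) → EuclideanSpace ℝ (Fin (m + 2)))
    (t : EuclideanSpace ℝ (Fin m)) : Set (EuclideanSpace ℝ (Fin (m + 2))) :=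
  {x | ∃ α β : ℝ, x = p t + (α • u t + β • w t)}

/-- The data of an `m`-parameter family of planes in `ℝ^{m+2}`: a measurable parameter set, a base
point and an orthonormal frame, differentiable at the parameters of the set. -/
structure PlaneFamily {m : ℕ} (U : Set (EuclideanSpace ℝ (Fin m)))
    (p u w : EuclideanSpace ℝ (Fin m) → EuclideanSpace ℝ (Fin (m + 2))) : Prop where
  measurableSet : MeasurableSet U
  diff_p : ∀ t ∈ U, DifferentiableAt ℝ p t
  diff_u : ∀ t ∈ U, DifferentiableAt ℝ u t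
  diff_w : ∀ t ∈ U, DifferentiableAt ℝ w t
  norm_u : ∀ t ∈ U, ‖u t‖ = 1
  norm_w : ∀ t ∈ U, ‖w t‖ = 1
  inner_uw : ∀ t ∈ U, inner ℝ (u t) (w t) = 0

/-- Almost every point of the space lies on at most `N` planes of the family. -/
def MultiplicityLE {m : ℕ} (N : ℕ) (U : Set (EuclideanSpace ℝ (Fin m)))
    (p u w : EuclideanSpace ℝ (Fin m) → EuclideanSpace ℝ (Fin (m + 2))) : Prop :=
  ∀ᵐ x : EuclideanSpace ℝ (Fin (m + 2)), {t | t ∈ U ∧ x ∈ plane p u w t}.encard ≤ N

/-- Supremum of the averages of `|f|` over the `δ`-tubes whose direction `e` is parallel to a plane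
of the family and whose axis line (through the centre `a`) passes at distance at most `δ` from a
point `q` of that plane. -/
noncomputable def planeMax {m : ℕ} (δ : ℝ) (U : Set (EuclideanSpace ℝ (Fin m)))
    (p u w : EuclideanSpace ℝ (Fin m) → EuclideanSpace ℝ (Fin (m + 2)))
    (f : EuclideanSpace ℝ (Fin (m + 2)) → ℝ) (e : EuclideanSpace ℝ (Fin (m + 2))) : ℝ≥0∞ :=
  ⨆ (t : EuclideanSpace ℝ (Fin m)) (a : EuclideanSpace ℝ (Fin (m + 2)))
    (q : EuclideanSpace ℝ (Fin (m + 2)))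
    (_ : t ∈ U ∧ (∃ α β : ℝ, e = α • u t + β • w t) ∧ q ∈ plane p u w t ∧
      ‖(a - q) - (inner ℝ (a - q) e : ℝ) • e‖ ≤ δ),
      (volume (tube δ e a))⁻¹ * ∫⁻ y in tube δ e a, ‖f y‖ₑ

theorem ofReal_five {a b c d : ℝ} {N : ℕ} (ha : 0 ≤ a) (hb : 0 ≤ b) (hc : 0 ≤ c) (hd : 0 ≤ d) :
    ENNReal.ofReal (2 * (a * (b * (c * (d * N))))) = 2 * (ENNReal.ofReal a * (ENNReal.ofReal b *
      (ENNReal.ofReal c * (ENNReal.ofReal d * N)))) := by
  rw [ENNReal.ofReal_mul (by norm_num), ENNReal.ofReal_mul ha, ENNReal.ofReal_mul hb,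
    ENNReal.ofReal_mul hc, ENNReal.ofReal_mul hd, ENNReal.ofReal_natCast, ENNReal.ofReal_ofNat]

theorem C1_le {m : ℕ} (hm : 1 ≤ m) : ∃ c : ℝ, 0 < c ∧ ∀ δ : ℝ, 0 < δ → δ < 1 →
    Pool.Agent.R250.PF.C1 m δ ≤ ENNReal.ofReal (c * (1 + Real.log (1 / δ)) ^ m) := by
  have hm0 : (0:ℝ) < m := by exact_mod_cast hm
  have hm1 : (1:ℝ) ≤ m := by exact_mod_cast hm
  set A : ℝ := 1 + Real.log (25 * m) with hA
  have hlog25 : 0 ≤ Real.log (25 * m) := Real.log_nonneg (by linarith)
  have hA0 : 0 < A := by linarith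
  refine ⟨2 ^ (m + 2) * (2 * m * A) ^ m * ((2 ^ (m + 2)) ^ (m + 2) * 4), by positivity, ?_⟩
  intro δ hδ hδ1
  have hlog : 0 ≤ Real.log (1 / δ) := Real.log_nonneg (by rw [le_div_iff₀ hδ]; linarith)
  set L : ℝ := 1 + Real.log (1 / δ) with hL
  have hL1 : 1 ≤ L := by linarith
  have hb : Real.log (1 + 3 / (δ / 2 / (4 * m))) ≤ A * L := by
    have h1 : 1 + 3 / (δ / 2 / (4 * m)) ≤ 25 * m * (1 / δ) := by
      have e1 : 3 / (δ / 2 / (4 * m)) = 24 * m * (1 / δ) := by
        field_simp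
        ring
      rw [e1]
      have : 1 ≤ m * (1 / δ) := by
        have : 1 ≤ 1 / δ := by rw [le_div_iff₀ hδ]; linarith
        nlinarith
      linarith
    have h2 : Real.log (1 + 3 / (δ / 2 / (4 * m))) ≤ Real.log (25 * m * (1 / δ)) :=
      Real.log_le_log (by positivity) h1
    rw [Real.log_mul (by positivity) (by positivity)] at h2
    have h3 : Real.log (25 * m) + Real.log (1 / δ) ≤ A * L := by
      rw [hA, hL]; nlinarith
    linarith
  have hb' : ENNReal.ofReal (Real.log (1 + 3 / (δ / 2 / (4 * m)))) ≤ ENNReal.ofReal (A * L) :=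
    ENNReal.ofReal_le_ofReal hb
  have hfin : ENNReal.ofReal (2 ^ (m + 2) * (2 * m * A) ^ m * ((2 ^ (m + 2)) ^ (m + 2) * 4) * L ^ m)
      = 2 ^ (m + 2) * (2 * m * ENNReal.ofReal (A * L)) ^ m * ((2 ^ (m + 2)) ^ (m + 2) * 4) := by
    have e1 : 2 ^ (m + 2) * (2 * m * A) ^ m * ((2 ^ (m + 2)) ^ (m + 2) * 4) * L ^ m =
        2 ^ (m + 2) * (2 * m * (A * L)) ^ m * ((2 ^ (m + 2)) ^ (m + 2) * 4) := by
      rw [show 2 * (m:ℝ) * (A * L) = (2 * m * A) * L by ring, mul_pow (2 * (m:ℝ) * A) L]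
      ring
    have hX : 0 ≤ A * L := by positivity
    rw [e1]
    generalize A * L = X at hX
    have f1 : ENNReal.ofReal (2 ^ (m + 2)) = 2 ^ (m + 2) := by
      rw [ENNReal.ofReal_pow (by norm_num)]; norm_num
    have f2 : ENNReal.ofReal ((2 * m * X) ^ m) = (2 * m * ENNReal.ofReal X) ^ m := by
      rw [ENNReal.ofReal_pow (by positivity), ENNReal.ofReal_mul (by positivity),
        ENNReal.ofReal_mul (by norm_num), ENNReal.ofReal_natCast]
      norm_num
    have f3 : ENNReal.ofReal ((2 ^ (m + 2)) ^ (m + 2) * 4) = (2 ^ (m + 2)) ^ (m + 2) * 4 := by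
      rw [ENNReal.ofReal_mul (by positivity), ENNReal.ofReal_pow (by positivity), f1]
      norm_num
    rw [ENNReal.ofReal_mul (by positivity), ENNReal.ofReal_mul (by positivity), f1, f2, f3]
  rw [hfin, Pool.Agent.R250.PF.C1]
  gcongr

open Pool.Agent.W767.Kc in
theorem main (m : ℕ) (hm : 1 ≤ m) : ∃ C : ℝ, 0 < C ∧
    ∀ (U : Set (EuclideanSpace ℝ (Fin m)))
      (p u w : EuclideanSpace ℝ (Fin m) → EuclideanSpace ℝ (Fin (m + 2))) (N : ℕ),
      PlaneFamily U p u w → MultiplicityLE N U p u w →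
      ∀ (δ : ℝ) (f : EuclideanSpace ℝ (Fin (m + 2)) → ℝ), 0 < δ → δ < 1 → Measurable f →
      ∃ G : sphere (0 : EuclideanSpace ℝ (Fin (m + 2))) 1 → ℝ≥0∞, Measurable G ∧
        (∀ e : sphere (0 : EuclideanSpace ℝ (Fin (m + 2))) 1,
          planeMax δ U p u w f e ^ (m + 2) ≤ G e) ∧
        ∫⁻ e, G e ∂(volume : Measure (EuclideanSpace ℝ (Fin (m + 2)))).toSphere
          ≤ ENNReal.ofReal (C * N * (1 + Real.log (1 / δ)) ^ (m + 2)) * ∫⁻ y, ‖f y‖ₑ ^ (m + 2) := by
  obtain ⟨C₀, hC₀t, hC₀⟩ := tube_avg (m + 1)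
  obtain ⟨C₂, hC₂, htot⟩ := Pool.Agent.R250.PF.total_bound
  obtain ⟨c, hc, hC1⟩ := C1_le hm
  set K : ℝ≥0∞ := (C₀ * 6) ^ (m + 2) with hK
  have hKt : K ≠ ∞ := ENNReal.pow_ne_top (ENNReal.mul_ne_top hC₀t (by norm_num))
  refine ⟨2 * (K.toReal + 1) * 2 ^ (m + 1) * c * (4 * C₂), by positivity, ?_⟩
  intro U p u w N hPF hN δ f hδ hδ1 hf
  have hF : Pool.Agent.R250.PF.Fam U p u w :=
    ⟨hPF.measurableSet, hPF.diff_p, hPF.diff_u, hPF.diff_w, hPF.norm_u, hPF.norm_w, hPF.inner_uw⟩
  have hN' : ∀ᵐ x : EuclideanSpace ℝ (Fin (m + 2)), Pool.Agent.R250.PF.Mult U p u w x ≤ N := by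
    filter_upwards [hN] with x hx
    refine le_trans ?_ hx
    apply Set.encard_le_encard
    rintro t ⟨ht, y, hy⟩
    exact ⟨ht, y 0, y 1, hy⟩
  obtain ⟨M, hMm, hM1, hM2⟩ := htot m hm U p u w hF N hN' δ hδ hδ1.le (fun y => ‖f y‖ₑ) hf.enorm
  have hlog : 0 ≤ Real.log (1 / δ) := Real.log_nonneg (by rw [le_div_iff₀ hδ]; linarith)
  set L : ℝ := 1 + Real.log (1 / δ) with hL
  have hL1 : 1 ≤ L := by linarith
  have hjm : Measurable (fun z : sphere (0 : EuclideanSpace ℝ (Fin (m + 2))) 1 × ℝ =>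
      K * M (z.2 • (z.1 : EuclideanSpace ℝ (Fin (m + 2))))) := by
    apply Measurable.const_mul
    apply hMm.comp
    fun_prop
  refine ⟨fun e => 2 * ∫⁻ τ in Icc (1 / 2 : ℝ) 1, K * M (τ • (e : EuclideanSpace ℝ (Fin (m + 2)))),
    (Measurable.lintegral_prod_right' (ν := volume.restrict (Icc (1 / 2 : ℝ) 1)) hjm).const_mul 2,
    ?_, ?_⟩
  · intro e
    have he : ‖(e : EuclideanSpace ℝ (Fin (m + 2)))‖ = 1 := by simp
    have hpt : ∀ τ ∈ Icc (1 / 2 : ℝ) 1, planeMax δ U p u w f e ^ (m + 2) ≤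
        K * M (τ • (e : EuclideanSpace ℝ (Fin (m + 2)))) := by
      intro τ hτ
      unfold planeMax
      rw [ENNReal.iSup_pow]
      apply iSup_le
      intro t
      rw [ENNReal.iSup_pow]
      apply iSup_le
      intro a
      rw [ENNReal.iSup_pow]
      apply iSup_le
      intro q
      rw [ENNReal.iSup_pow_of_ne_zero (by omega)]
      apply iSup_le
      rintro ⟨ht, ⟨α, β, hαβ⟩, ⟨y0, y1, hq⟩, ha⟩
      subst hq
      have h := Pool.Agent.R250.PF.tube_bound (m := m) (C₀ := C₀) (f := fun y => ‖f y‖ₑ) hδ hδ1.le hC₀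
        hf.enorm (p := p t) (hPF.norm_u t ht) (hPF.norm_w t ht) (hPF.inner_uw t ht) (M := M)
        (fun v hv q => hM1 t ht v hv q) he hαβ (y := ![y0, y1]) (a := a) ha hτ.1 hτ.2
      exact h
    calc planeMax δ U p u w f e ^ (m + 2)
        = 2 * ∫⁻ τ in Icc (1 / 2 : ℝ) 1, planeMax δ U p u w f e ^ (m + 2) := by
          rw [setLIntegral_const, Real.volume_Icc]
          have : ENNReal.ofReal (1 - 1 / 2) = 2⁻¹ := by
            rw [show (1:ℝ) - 1 / 2 = 2⁻¹ by norm_num, ENNReal.ofReal_inv_of_pos (by norm_num)]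
            norm_num
          rw [this, mul_comm (planeMax δ U p u w f e ^ (m + 2)), ← mul_assoc,
            ENNReal.mul_inv_cancel (by norm_num) (by norm_num), one_mul]
      _ ≤ 2 * ∫⁻ τ in Icc (1 / 2 : ℝ) 1, K * M (τ • (e : EuclideanSpace ℝ (Fin (m + 2)))) :=
          mul_le_mul' le_rfl (setLIntegral_mono' measurableSet_Icc hpt)
  · have hg : Measurable (fun x : EuclideanSpace ℝ (Fin (m + 2)) => K * M x) := hMm.const_mul K
    have hsh := Pool.Agent.TH225.CK.shell (m + 1) hg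
    have h4 : (1 + Real.log (1 / (δ / 2))) ^ 2 ≤ 4 * L ^ 2 := by
      have e1 : Real.log (1 / (δ / 2)) = Real.log 2 + Real.log (1 / δ) := by
        rw [← Real.log_mul (by norm_num) (by positivity)]
        congr 1
        field_simp
      have h2 : Real.log 2 < 1 := by
        have := Real.log_two_lt_d9
        linarith
      have h2' : 0 < Real.log 2 := Real.log_pos (by norm_num)
      rw [e1]
      have h3 : 1 + (Real.log 2 + Real.log (1 / δ)) ≤ 2 * L := by rw [hL]; linarith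
      have h5 : 0 ≤ 1 + (Real.log 2 + Real.log (1 / δ)) := by linarith
      calc (1 + (Real.log 2 + Real.log (1 / δ))) ^ 2 ≤ (2 * L) ^ 2 := by gcongr
        _ = _ := by ring
    set S : ℝ≥0∞ := ∫⁻ y, ‖f y‖ₑ ^ (m + 2) with hS
    calc ∫⁻ e : sphere (0 : EuclideanSpace ℝ (Fin (m + 2))) 1,
          (2 * ∫⁻ τ in Icc (1 / 2 : ℝ) 1, K * M (τ • (e : EuclideanSpace ℝ (Fin (m + 2)))))
            ∂(volume : Measure (EuclideanSpace ℝ (Fin (m + 2)))).toSphere
        = 2 * ∫⁻ e : sphere (0 : EuclideanSpace ℝ (Fin (m + 2))) 1,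
          (∫⁻ τ in Icc (1 / 2 : ℝ) 1, K * M (τ • (e : EuclideanSpace ℝ (Fin (m + 2)))))
            ∂(volume : Measure (EuclideanSpace ℝ (Fin (m + 2)))).toSphere := by
          rw [lintegral_const_mul' _ _ (by norm_num)]
      _ ≤ 2 * (ENNReal.ofReal (2 ^ (m + 1)) *
            ∫⁻ x in closedBall (0 : EuclideanSpace ℝ (Fin (m + 2))) 1, K * M x) := by
          exact mul_le_mul' le_rfl hsh
      _ ≤ 2 * (ENNReal.ofReal (2 ^ (m + 1)) * (K * ∫⁻ x, M x)) := by
          rw [lintegral_const_mul' _ _ hKt]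
          exact mul_le_mul' le_rfl (mul_le_mul' le_rfl (mul_le_mul' le_rfl
            (setLIntegral_le_lintegral _ _)))
      _ ≤ 2 * (ENNReal.ofReal (2 ^ (m + 1)) * (ENNReal.ofReal (K.toReal + 1) *
            (ENNReal.ofReal (c * L ^ m) * (ENNReal.ofReal (C₂ * (4 * L ^ 2)) * (N * S))))) := by
          have hK' : K ≤ ENNReal.ofReal (K.toReal + 1) := by
            calc K = ENNReal.ofReal K.toReal := (ENNReal.ofReal_toReal hKt).symm
              _ ≤ _ := ENNReal.ofReal_le_ofReal (by linarith)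
          have h5 : ENNReal.ofReal (C₂ * (1 + Real.log (1 / (δ / 2))) ^ 2) ≤
              ENNReal.ofReal (C₂ * (4 * L ^ 2)) :=
            ENNReal.ofReal_le_ofReal (mul_le_mul_of_nonneg_left h4 hC₂.le)
          have h6 : ∫⁻ x, M x ≤ ENNReal.ofReal (c * L ^ m) * (ENNReal.ofReal (C₂ * (4 * L ^ 2)) *
              (N * S)) :=
            hM2.trans (mul_le_mul' (hC1 δ hδ hδ1) (mul_le_mul' h5 le_rfl))
          exact mul_le_mul' le_rfl (mul_le_mul' le_rfl (mul_le_mul' hK' h6))
      _ = ENNReal.ofReal (2 * (K.toReal + 1) * 2 ^ (m + 1) * c * (4 * C₂) * N * L ^ (m + 2)) * S := by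
          have e1 : 2 * (K.toReal + 1) * 2 ^ (m + 1) * c * (4 * C₂) * N * L ^ (m + 2) =
              2 * (2 ^ (m + 1) * ((K.toReal + 1) * ((c * L ^ m) * ((C₂ * (4 * L ^ 2)) * N)))) := by
            ring
          have hKr : 0 ≤ K.toReal + 1 := by positivity
          rw [e1, ofReal_five (by positivity) hKr (by positivity) (by positivity)]
          ring

/-- **Kakeya maximal estimate along families of planes of bounded multiplicity**, at the critical
exponent `n = m + 2 ≥ 3` with a logarithmic loss.  The function `G` is a measurable majorant of the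
`n`-th power of the maximal function, so the estimate is for the upper integral. -/
theorem result (m : ℕ) (hm : 1 ≤ m) : ∃ C : ℝ, 0 < C ∧
    ∀ (U : Set (EuclideanSpace ℝ (Fin m)))
      (p u w : EuclideanSpace ℝ (Fin m) → EuclideanSpace ℝ (Fin (m + 2))) (N : ℕ),
      PlaneFamily U p u w → MultiplicityLE N U p u w →
      ∀ (δ : ℝ) (f : EuclideanSpace ℝ (Fin (m + 2)) → ℝ), 0 < δ → δ < 1 → AEMeasurable f →
      ∃ G : sphere (0 : EuclideanSpace ℝ (Fin (m + 2))) 1 → ℝ≥0∞, Measurable G ∧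
        (∀ e : sphere (0 : EuclideanSpace ℝ (Fin (m + 2))) 1,
          planeMax δ U p u w f e ^ (m + 2) ≤ G e) ∧
        ∫⁻ e, G e ∂(volume : Measure (EuclideanSpace ℝ (Fin (m + 2)))).toSphere
          ≤ ENNReal.ofReal (C * N * (1 + Real.log (1 / δ)) ^ (m + 2)) * ∫⁻ y, ‖f y‖ₑ ^ (m + 2) := by
  obtain ⟨C, hC, hmain⟩ := main m hm
  refine ⟨C, hC, ?_⟩
  intro U p u w N hPF hN δ f hδ hδ1 hf
  obtain ⟨G, hG, hG1, hG2⟩ := hmain U p u w N hPF hN δ (hf.mk f) hδ hδ1 hf.measurable_mk
  refine ⟨G, hG, ?_, ?_⟩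
  · intro e
    have h1 : planeMax δ U p u w f e = planeMax δ U p u w (hf.mk f) e := by
      unfold planeMax
      have h2 : ∀ a : EuclideanSpace ℝ (Fin (m + 2)), ∫⁻ y in tube δ (e : EuclideanSpace ℝ (Fin (m + 2))) a, ‖f y‖ₑ =
          ∫⁻ y in tube δ (e : EuclideanSpace ℝ (Fin (m + 2))) a, ‖hf.mk f y‖ₑ := by
        intro a
        apply lintegral_congr_ae
        apply ae_restrict_of_ae
        filter_upwards [hf.ae_eq_mk] with y hy
        rw [hy]
      simp only [h2]
    rw [h1]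
    exact hG1 e
  · have h3 : ∫⁻ y, ‖f y‖ₑ ^ (m + 2) = ∫⁻ y, ‖hf.mk f y‖ₑ ^ (m + 2) := by
      apply lintegral_congr_ae
      filter_upwards [hf.ae_eq_mk] with y hy
      rw [hy]
    rw [h3]
    exact hG2

end Pool.Agent.Results.MP_5168f5_an.PlaneFamilies
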