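import Pool.Agent.R250.TW

set_option autoImplicit false

/-!
# MP_5168f5: Kakeya maximal estimates for random families of lines, and for generic twists of
arbitrary families in `ℝ³`

Work in `ℝ^{d+1} = ℝ^d × ℝ` (`Space d`), `n = d + 1`.  For `v` in the closed unit ball of `ℝ^d`
the line number `v` of the family given by `b : ℝ^d → ℝ^d` is `{(b v + s v, s) : s ∈ ℝ}`; its
direction is `(v, 1)`.  `lineMax δ b f v` is the supremum of the averages of `|f|` over the
`δ`-tubes of length one with axis on the line number `v` of the family `b`.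

1. *A general criterion.*  Let `b_ω` be a random family such that, for `v ≠ w`, the expected length
   of the set of heights `|t| ≤ H` at which the lines `v` and `w` are at distance at most `r` is at
   most `A (r / |v - w|)^s`.  Then almost surely the maximal function of `b_ω` satisfies for all
   `p ≥ 2` the weighted `L^p` estimates with the loss `δ^(-(d - s))`, up to logarithms; for `s = d`
   there is no power loss.
2. *Arbitrary families.*  Perturb an arbitrary measurable family `a` by a transversal family `g_l`,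
   with a parameter `l` in a metric space.  For every finite measure `μ` of dimension at least `α`
   on the space of parameters, the estimates hold for `μ`-almost every `l`, with the loss
   `δ^(-(d - 1 - α))`.
3. *Twists in `ℝ³`.*  For `d = 2` the family `g_l v = l J v`, `J` the rotation by 90 degrees,
   `l ∈ ℝ`, is transversal.  So for every measurable family `a` in `ℝ³` and almost every real
   number `l` the maximal function of the twisted family `a + l J` satisfies the estimates without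
   power loss, and the exceptional sets for the loss `δ^(-τ)` carry no measure of a dimension
   greater than `1 - τ`.
-/

open MeasureTheory Set Filter Topology ENNReal NNReal Metric

namespace Pool.Agent.Results.MP_5168f5_an.TwistedFamilies

open Pool.Agent.H803R2.KakFTO

/-- `f` vanishes at the heights `t` with `|t| > H`. -/
def VanishesAbove {d : ℕ} (H : ℝ) (f : Space d → ℝ) : Prop :=
  ∀ (y : Vec d) (t : ℝ), H < |t| → f (WithLp.toLp 2 (y, t)) = 0

/-- The `L^p` estimates, for all `p ≥ 2` and all `0 < δ < 1`, for the maximal function of the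
family `b` with respect to a weight `U` on the unit ball of directions which depends only on the
bound `H` for the heights at which the functions live and whose inverse is integrable, with the
constants `C p` and the loss `(1 + log (1/δ))^3 δ^(-τ)`. -/
def WeightedBounds {d : ℕ} (C : ℝ → ℝ) (τ : ℝ) (b : Vec d → Vec d) : Prop :=
  ∀ H : ℝ, ∃ U : Vec d → ℝ≥0∞, Measurable U ∧
    ∫⁻ v in closedBall (0 : Vec d) 1, (U v)⁻¹ < ∞ ∧
    ∀ (p δ : ℝ) (f : Space d → ℝ), 2 ≤ p → 0 < δ → δ < 1 → AEMeasurable f volume →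
      VanishesAbove H f →
      ∫⁻ v in closedBall (0 : Vec d) 1, U v * lineMax δ b f v ^ p
        ≤ ENNReal.ofReal (C p * (1 + Real.log (1 / δ)) ^ 3 * δ ^ (-τ)) * ∫⁻ y, ‖f y‖ₑ ^ p

/-- For `v ≠ w` the expected length of the set of the heights `|t| ≤ H` at which the lines number
`v` and `w` of the random family `b` are at distance at most `r` is at most
`A (r / |v - w|) ^ s`, with `A` depending on `H` only. -/
def Spread {d : ℕ} {Ω : Type} [MeasurableSpace Ω] (P : Measure Ω) (b : Ω → Vec d → Vec d)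
    (s : ℝ) : Prop :=
  ∀ H : ℝ, ∃ A : ℝ, 0 ≤ A ∧ ∀ v ∈ closedBall (0 : Vec d) 1, ∀ w ∈ closedBall (0 : Vec d) 1,
    v ≠ w → ∀ r : ℝ, 0 < r →
      (P.prod (volume.restrict (Icc (-H) H)))
        {z | ‖(b z.1 v + z.2 • v) - (b z.1 w + z.2 • w)‖ ≤ r}
          ≤ ENNReal.ofReal (A * (r / ‖v - w‖) ^ s)

/-- `μ` has dimension at least `α`: balls of radius `r` have measure at most `A r ^ α`. -/
def Dimensional {Λ : Type} [PseudoMetricSpace Λ] [MeasurableSpace Λ] (μ : Measure Λ) (α : ℝ) :
    Prop :=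
  ∃ A : ℝ, 0 ≤ A ∧ ∀ (x : Λ) (r : ℝ), 0 < r → μ (closedBall x r) ≤ ENNReal.ofReal (A * r ^ α)

/-- The family `g` with parameter `l` is transversal: if the parameter and the height are changed,
the difference of the points of two lines `v`, `w` of that height changes by at least a multiple of
`|v - w|` times the change of the parameter and of the height. -/
def Transversal {d : ℕ} {Λ : Type} [PseudoMetricSpace Λ] (g : Λ → Vec d → Vec d) : Prop :=
  ∃ κ : ℝ, 0 < κ ∧ ∀ (l m : Λ) (t u : ℝ),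
    ∀ v ∈ closedBall (0 : Vec d) 1, ∀ w ∈ closedBall (0 : Vec d) 1,
      κ * max (dist l m) |t - u| * ‖v - w‖ ≤
        ‖((g l v - g l w) + t • (v - w)) - ((g m v - g m w) + u • (v - w))‖

/-- The family `a` in `ℝ³`, twisted: `a v + l J v`, with `J` the rotation by 90 degrees. -/
noncomputable def twist (a : Vec 2 → Vec 2) (l : ℝ) (v : Vec 2) : Vec 2 :=
  a v + l • WithLp.toLp 2 ![-(v 1), v 0]

/-- The constants. -/
noncomputable def cst (d : ℕ) (p : ℝ) : ℝ := (4 * 16 ^ d) ^ p * 3 ^ (p - 2) * 8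

theorem random {d : ℕ} {Ω : Type} [MeasurableSpace Ω] (P : Measure Ω) [IsFiniteMeasure P]
    {b : Ω → Vec d → Vec d} {s : ℝ} (hb : Measurable (fun z : Ω × Vec d => b z.1 z.2))
    (hs : 0 ≤ s) (hsd : s ≤ d) (hsp : Spread P b s) :
    ∀ᵐ ω ∂P, WeightedBounds (cst d) (d - s) (b ω) := by
  have h : ∀ H : ℕ, ∀ᵐ ω ∂P, ∃ U : Vec d → ℝ≥0∞, Measurable U ∧
      ∫⁻ v in closedBall (0:Vec d) 1, (U v)⁻¹ < ∞ ∧
      ∀ (p δ : ℝ) (f : Space d → ℝ), 2 ≤ p → 0 < δ → δ < 1 → AEMeasurable f volume →
        (∀ (y : Vec d) (t : ℝ), t ∉ Icc (-(H:ℝ)) H → f (WithLp.toLp 2 (y, t)) = 0) →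
        ∫⁻ v in closedBall (0:Vec d) 1, U v * lineMax δ (b ω) f v ^ p
          ≤ ENNReal.ofReal (cst d p * (1 + Real.log (1/δ)) ^ 3 * δ ^ (-((d:ℝ) - s))) *
            ∫⁻ y, ‖f y‖ₑ ^ p := by
    intro H
    obtain ⟨A, hA, hAs⟩ := hsp H
    exact Pool.Agent.R250.TW.main hb measurableSet_Icc
      (by rw [Real.volume_Icc]; exact ENNReal.ofReal_ne_top) hA hs hsd hAs
  rw [← ae_all_iff] at h
  filter_upwards [h] with ω hω
  intro H
  obtain ⟨H', hH'⟩ := exists_nat_ge H
  obtain ⟨U, hU1, hU2, hU3⟩ := hω H'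
  refine ⟨U, hU1, hU2, fun p δ f hp hδ hδ1 hf hfH => hU3 p δ f hp hδ hδ1 hf ?_⟩
  intro y t ht
  apply hfH
  by_contra hcon
  apply ht
  rw [mem_Icc]
  exact abs_le.1 ((not_lt.1 hcon).trans hH')

theorem transversal {d : ℕ} {Λ : Type} [PseudoMetricSpace Λ] [MeasurableSpace Λ]
    (μ : Measure Λ) [IsFiniteMeasure μ] {α : ℝ} (hα : 0 ≤ α) (hαd : α ≤ d - 1)
    (hμ : Dimensional μ α) {g : Λ → Vec d → Vec d}
    (hg : Measurable (fun z : Λ × Vec d => g z.1 z.2)) (hT : Transversal g)
    {a : Vec d → Vec d} (ha : Measurable a) :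
    ∀ᵐ l ∂μ, WeightedBounds (cst d) (d - 1 - α) (fun v => a v + g l v) := by
  obtain ⟨A, hA, hμA⟩ := hμ
  obtain ⟨κ, hκ, hgκ⟩ := hT
  have hb : Measurable (fun z : Λ × Vec d => a z.2 + g z.1 z.2) :=
    (ha.comp measurable_snd).add hg
  have htr : Pool.Agent.R250.TW.TransE κ (fun l v => a v + g l v) := by
    intro l m t u v hv w hw
    have h := hgκ l m t u v hv w hw
    have e : ((a v + g l v - (a w + g l w)) + t • (v - w)) -
        ((a v + g m v - (a w + g m w)) + u • (v - w)) =
        ((g l v - g l w) + t • (v - w)) - ((g m v - g m w) + u • (v - w)) := by abel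
    simp only
    rw [e]
    exact h
  have h1 : Spread μ (fun l v => a v + g l v) (1 + α) := by
    intro H
    exact ⟨2 * A * (2 / κ) ^ (1 + α), by positivity,
      Pool.Agent.R250.TW.spread_of_trans hκ hA hμA htr (Icc (-H) H)⟩
  have h2 := random μ hb (by linarith) (by linarith) h1
  have e : (d:ℝ) - (1 + α) = d - 1 - α := by ring
  rwa [e] at h2

theorem norm_sq_two (x : Vec 2) : ‖x‖ ^ 2 = x 0 ^ 2 + x 1 ^ 2 := by
  rw [EuclideanSpace.norm_sq_eq, Fin.sum_univ_two]
  simp

theorem twist_transversal :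
    Transversal (fun (l : ℝ) (v : Vec 2) => l • WithLp.toLp 2 ![-(v 1), v 0]) := by
  refine ⟨1, one_pos, ?_⟩
  intro l m t u v _ w _
  rw [one_mul, Real.dist_eq]
  set x : Vec 2 := v - w with hx
  set z : Vec 2 := ((l • (WithLp.toLp 2 ![-(v 1), v 0] : Vec 2) -
    l • WithLp.toLp 2 ![-(w 1), w 0]) + t • x) -
    ((m • (WithLp.toLp 2 ![-(v 1), v 0] : Vec 2) - m • WithLp.toLp 2 ![-(w 1), w 0]) + u • x)
    with hz
  have h0 : z 0 = -(l - m) * x 1 + (t - u) * x 0 := by
    rw [hz, hx]
    simp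
    ring
  have h1 : z 1 = (l - m) * x 0 + (t - u) * x 1 := by
    rw [hz, hx]
    simp
    ring
  have h2 : ‖z‖ ^ 2 = ((l - m) ^ 2 + (t - u) ^ 2) * ‖x‖ ^ 2 := by
    rw [norm_sq_two, norm_sq_two, h0, h1]
    ring
  have h3 : (max |l - m| |t - u|) ^ 2 ≤ (l - m) ^ 2 + (t - u) ^ 2 := by
    rcases max_cases |l - m| |t - u| with ⟨h, _⟩ | ⟨h, _⟩
    · rw [h, sq_abs]; nlinarith [sq_nonneg (t - u)]
    · rw [h, sq_abs]; nlinarith [sq_nonneg (l - m)]
  have h4 : (max |l - m| |t - u| * ‖x‖) ^ 2 ≤ ‖z‖ ^ 2 := by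
    rw [h2, mul_pow]
    gcongr
  exact (sq_le_sq₀ (by positivity) (norm_nonneg _)).1 h4

theorem twist_ae {a : Vec 2 → Vec 2} (ha : Measurable a) (μ : Measure ℝ) [IsFiniteMeasure μ]
    {α : ℝ} (hα : 0 ≤ α) (hα1 : α ≤ 1) (hμ : Dimensional μ α) :
    ∀ᵐ l ∂μ, WeightedBounds (cst 2) (1 - α) (twist a l) := by
  have hm : Measurable (fun z : ℝ × Vec 2 => z.1 • (WithLp.toLp 2 ![-(z.2 1), z.2 0] : Vec 2)) := by
    apply Measurable.smul measurable_fst
    apply (WithLp.measurable_toLp 2 (Fin 2 → ℝ)).comp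
    rw [measurable_pi_iff]
    have hc : ∀ i : Fin 2, Measurable (fun z : ℝ × Vec 2 => z.2 i) := fun i => by
      have h := (PiLp.continuous_apply 2 (fun _ : Fin 2 => ℝ) i).measurable
      exact h.comp measurable_snd
    intro i
    fin_cases i
    · exact (hc 1).neg
    · exact hc 0
  have h := transversal (d := 2) μ hα (by push_cast; linarith) hμ hm twist_transversal ha
  have e : ((2:ℕ):ℝ) - 1 - α = 1 - α := by push_cast; ring
  rw [e] at h
  exact h

/-- **Kakeya maximal estimates for random families of lines and for generic twists.** -/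
theorem result :
    -- (1) and (2): all dimensions
    (∀ d : ℕ, ∃ C : ℝ → ℝ,
      (∀ (Ω : Type) [MeasurableSpace Ω] (P : Measure Ω) [IsFiniteMeasure P]
        (b : Ω → Vec d → Vec d) (s : ℝ), Measurable (fun z : Ω × Vec d => b z.1 z.2) → 0 ≤ s →
        s ≤ d → Spread P b s → ∀ᵐ ω ∂P, WeightedBounds C (d - s) (b ω)) ∧
      (∀ (Λ : Type) [PseudoMetricSpace Λ] [MeasurableSpace Λ] (μ : Measure Λ) [IsFiniteMeasure μ]
        (α : ℝ), 0 ≤ α → α ≤ d - 1 → Dimensional μ α → ∀ g : Λ → Vec d → Vec d,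
        Measurable (fun z : Λ × Vec d => g z.1 z.2) → Transversal g →
        ∀ a : Vec d → Vec d, Measurable a →
          ∀ᵐ l ∂μ, WeightedBounds C (d - 1 - α) (fun v => a v + g l v))) ∧
    -- (3): twists of arbitrary families in three dimensions
    (∃ C : ℝ → ℝ, ∀ a : Vec 2 → Vec 2, Measurable a →
      (∀ᵐ l : ℝ, WeightedBounds C 0 (twist a l)) ∧
      (∀ (μ : Measure ℝ) [IsFiniteMeasure μ] (α : ℝ), 0 ≤ α → α ≤ 1 → Dimensional μ α →
        ∀ᵐ l ∂μ, WeightedBounds C (1 - α) (twist a l))) := by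
  refine ⟨fun d => ⟨cst d, ?_, ?_⟩, ⟨cst 2, fun a ha => ⟨?_, ?_⟩⟩⟩
  · intro Ω _ P _ b s hb hs hsd hsp
    exact random P hb hs hsd hsp
  · intro Λ _ _ μ _ α hα hαd hμ g hg hT a ha
    exact transversal μ hα hαd hμ hg hT ha
  · have h : ∀ N : ℕ, ∀ᵐ l ∂((volume : Measure ℝ).restrict (Icc (-(N:ℝ)) N)),
        WeightedBounds (cst 2) 0 (twist a l) := by
      intro N
      have : IsFiniteMeasure ((volume : Measure ℝ).restrict (Icc (-(N:ℝ)) N)) :=
        ⟨by rw [Measure.restrict_apply_univ, Real.volume_Icc]; exact ENNReal.ofReal_lt_top⟩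
      have h1 := twist_ae ha ((volume : Measure ℝ).restrict (Icc (-(N:ℝ)) N)) zero_le_one le_rfl
        ⟨2, by norm_num, fun x r _ => by
          refine (Measure.restrict_apply_le _ _).trans ?_
          rw [Real.volume_closedBall, Real.rpow_one]⟩
      rwa [sub_self] at h1
    have h2 : ∀ N : ℕ, ∀ᵐ l : ℝ, l ∈ Icc (-(N:ℝ)) N → WeightedBounds (cst 2) 0 (twist a l) :=
      fun N => (ae_restrict_iff' measurableSet_Icc).1 (h N)
    filter_upwards [ae_all_iff.2 h2] with l hl
    obtain ⟨N, hN⟩ := exists_nat_ge |l|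
    exact hl N (mem_Icc.2 (abs_le.1 hN))
  · intro μ _ α hα hα1 hμ
    exact twist_ae ha μ hα hα1 hμ

end Pool.Agent.Results.MP_5168f5_an.TwistedFamilies
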